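import Pool.Agent.Helper15.EP.St

set_option autoImplicit false

open Polynomial Pool.Agent.Helper15.FC Pool.Agent.Helper15.EP

namespace Pool.Agent.Helper47.EP

theorem hKC3 (hACF : StACF) (hNTS : StNTS) : StKC3 := by
  classical
  intro F _ _ m β hm
  obtain ⟨-, hA⟩ := hACF F
  obtain ⟨-, hmem, -, hdiv, hndiv⟩ := hA m hm
  have hOc : ∀ ν : AddChar F[X] ℂ, ν ∈ Oc m β ↔ ν ∈ AC m ∧ ∀ g ∈ Lw F β, ν g = 1 := by
    intro ν
    unfold Oc
    rw [Finset.mem_filter, hmem]
  by_cases hβ : m.natDegree ≤ β
  · have hempty : (Oc m β).filter (fun ν => ν ≠ 1) = ∅ := by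
      rw [Finset.filter_eq_empty_iff]
      intro ν hν
      rw [not_not]
      obtain ⟨h1, h2⟩ := (hOc ν).1 hν
      ext f
      rw [AddChar.one_apply]
      have h3 : f = m * (f /ₘ m) + f %ₘ m := by
        rw [add_comm]
        exact (Polynomial.modByMonic_add_div f m).symm
      have h4 : ν (f %ₘ m) = 1 := by
        apply h2
        rw [mem_Lw]
        refine lt_of_lt_of_le (Polynomial.degree_modByMonic_lt f hm) ?_
        rw [Polynomial.degree_eq_natDegree hm.ne_zero]
        exact_mod_cast hβ
      rw [h3, AddChar.map_add_eq_mul, h4, mul_one]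
      exact h1 (f /ₘ m)
    rw [hempty, Finset.card_empty, Nat.cast_zero, zero_mul]
    positivity
  · rw [not_le] at hβ
    have h1 : ∑ ν ∈ ACf m, ∑ g ∈ Lw F β, ν g = (Fintype.card F : ℂ) ^ m.natDegree := by
      rw [Finset.sum_comm, Finset.sum_eq_single (0 : F[X])]
      · exact hdiv 0 (dvd_zero m)
      · intro g hg hg0
        apply hndiv
        intro hd
        rw [mem_Lw] at hg
        have := Polynomial.degree_le_of_dvd hd hg0
        rw [Polynomial.degree_eq_natDegree hm.ne_zero] at this
        have h5 : ((m.natDegree : ℕ) : WithBot ℕ) < (β : WithBot ℕ) := lt_of_le_of_lt this hg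
        exact absurd (by exact_mod_cast h5) (not_lt.2 hβ.le)
      · intro h0
        exfalso
        apply h0
        rw [mem_Lw, Polynomial.degree_zero]
        exact WithBot.bot_lt_coe β
    have h2 : ∑ ν ∈ ACf m, ∑ g ∈ Lw F β, ν g =
        ((Oc m β).card : ℂ) * (Fintype.card F : ℂ) ^ β := by
      have h3 : ∀ ν ∈ ACf m, ∑ g ∈ Lw F β, ν g =
          if (∀ g ∈ Lw F β, ν g = 1) then (Fintype.card F : ℂ) ^ β else 0 := by
        intro ν _
        by_cases hν : ∀ g ∈ Lw F β, ν g = 1
        · rw [if_pos hν, Finset.sum_congr rfl hν, Finset.sum_const, nsmul_eq_mul, mul_one,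
            card_Lw]
          push_cast
          rfl
        · rw [if_neg hν]
          apply hNTS
          push Not at hν
          exact hν
      rw [Finset.sum_congr rfl h3, ← Finset.sum_filter, Finset.sum_const, nsmul_eq_mul]
      rfl
    have h3 : ((Oc m β).card : ℝ) * qr F ^ β = qr F ^ m.natDegree := by
      have := h2.symm.trans h1
      exact_mod_cast this
    rw [← h3]
    refine mul_le_mul_of_nonneg_right ?_ (by positivity)
    exact_mod_cast Finset.card_filter_le _ _

end Pool.Agent.Helper47.EP
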