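import Pool.Agent.Helper61.EP.StC
import Pool.Agent.Helper2.RL.M_LAP

/-!
# Module CFB of project EP: exit scales
-/

set_option autoImplicit false

open MeasureTheory Set Filter Topology
open scoped ENNReal RealInnerProductSpace

namespace Pool.Agent.Helper47.EP

open Pool.Agent.Helper61.EP Pool.Agent.Helper20.RG Pool.Agent.Helper20.RL
open Pool.Agent.Helper68.LM (Pl BB Bd Av HL ft fm DQ)
open Pool.Agent.Helper68.EP (Fb DQ3)
open Pool.Agent.Helper2.RL (lap_ck_mono lap_bb_ind lap_bb_add lap_bb_indicator lap_loc)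

theorem floor_near {a b : ℝ} (h : |a - b| ≤ 1) : |⌊a⌋ - ⌊b⌋| ≤ 1 := by
  rw [abs_le] at h ⊢
  constructor
  · have h1 : ⌊b⌋ ≤ ⌊a + 1⌋ := Int.floor_le_floor (by linarith)
    rw [Int.floor_add_one] at h1
    omega
  · have h1 : ⌊a⌋ ≤ ⌊b + 1⌋ := Int.floor_le_floor (by linarith)
    rw [Int.floor_add_one] at h1
    omega

theorem floor_near' {a b : ℝ} (h : |⌊a⌋ - ⌊b⌋| ≤ 1) : |a - b| ≤ 2 := by
  rw [abs_le] at h ⊢
  have h1 := Int.floor_le a
  have h2 := Int.lt_floor_add_one a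
  have h3 := Int.floor_le b
  have h4 := Int.lt_floor_add_one b
  have h5 : (⌊a⌋ : ℝ) - ⌊b⌋ ≤ 1 := by exact_mod_cast h.2
  have h6 : (-1 : ℝ) ≤ (⌊a⌋ : ℝ) - ⌊b⌋ := by exact_mod_cast h.1
  constructor <;> linarith

theorem coord_div {b : ℤ} {a c r : ℝ} (h : |a - c| ≤ r * (2 : ℝ) ^ b) :
    |a / (2 : ℝ) ^ b - c / (2 : ℝ) ^ b| ≤ r := by
  have h2 : (0 : ℝ) < (2 : ℝ) ^ b := zpow_pos (by norm_num) b
  rw [← sub_div, abs_div, abs_of_pos h2, div_le_iff₀ h2]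
  exact h

theorem coord_div' {b : ℤ} {a c r : ℝ} (h : |a / (2 : ℝ) ^ b - c / (2 : ℝ) ^ b| ≤ r) :
    |a - c| ≤ r * (2 : ℝ) ^ b := by
  have h2 : (0 : ℝ) < (2 : ℝ) ^ b := zpow_pos (by norm_num) b
  rwa [← sub_div, abs_div, abs_of_pos h2, div_le_iff₀ h2] at h

theorem sq_dq (b : ℤ) (z : Pl) : Sq z ((2 : ℝ) ^ b) ⊆ DQ3 b z := by
  rintro y ⟨h0, h1⟩
  refine ⟨floor_near (coord_div ?_), floor_near (coord_div ?_)⟩
  · rw [one_mul]; exact h0
  · rw [one_mul]; exact h1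

theorem dq_sq (b : ℤ) (z : Pl) : DQ3 b z ⊆ Sq z ((2 : ℝ) ^ (b + 1)) := by
  rintro y ⟨h0, h1⟩
  have e : (2 : ℝ) ^ (b + 1) = 2 * (2 : ℝ) ^ b := by
    rw [zpow_add_one₀ (by norm_num)]; ring
  refine ⟨?_, ?_⟩
  · rw [e]; exact coord_div' (floor_near' h0)
  · rw [e]; exact coord_div' (floor_near' h1)

theorem four_zpow (D : ℝ) (b : ℤ) : D * (4 : ℝ) ^ (b + 1) = 4 * D * (4 : ℝ) ^ b := by
  rw [zpow_add_one₀ (by norm_num)]; ring

theorem fb_ck (E : Set Pl) (D : ℝ) (b : ℤ) : Fb E D b ⊆ Ck E D b := by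
  rintro z ⟨h1, h2⟩
  exact ⟨h1, fun k' hk' => (measure_mono (inter_subset_inter_right _ (sq_dq k' z))).trans (h2 k' hk')⟩

theorem ck_fb (E : Set Pl) (D : ℝ) (b : ℤ) : Ck E D b ⊆ Fb E (4 * D) b := by
  rintro z ⟨h1, h2⟩
  refine ⟨h1, fun b' hb' => ?_⟩
  refine (measure_mono (inter_subset_inter_right _ (dq_sq b' z))).trans ((h2 (b' + 1) (by omega)).trans ?_)
  rw [four_zpow]

/-- measurability of the exit scale sets -/
theorem meas_fb {E : Set Pl} (hE : MeasurableSet E) (D : ℝ) (b : ℤ) : MeasurableSet (Fb E D b) := by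
  have e1 : Fb E D b = E ∩ ⋂ b' : ℤ, ⋂ _ : b ≤ b',
      {z | volume (E ∩ DQ3 b' z) ≤ ENNReal.ofReal (D * (4 : ℝ) ^ b')} := by
    ext z
    simp only [Fb, mem_inter_iff, mem_iInter, mem_ofPred_eq]
  rw [e1]
  refine hE.inter (MeasurableSet.iInter fun b' => MeasurableSet.iInter fun _ => ?_)
  let φ : Pl → ℤ × ℤ := fun z => (⌊z 0 / (2 : ℝ) ^ b'⌋, ⌊z 1 / (2 : ℝ) ^ b'⌋)
  have hφ : Measurable φ := by
    have c0 : Measurable fun z : Pl => z 0 / (2 : ℝ) ^ b' :=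
      (Continuous.measurable (by fun_prop))
    have c1 : Measurable fun z : Pl => z 1 / (2 : ℝ) ^ b' :=
      (Continuous.measurable (by fun_prop))
    exact (Int.measurable_floor.comp c0).prodMk (Int.measurable_floor.comp c1)
  have e2 : {z : Pl | volume (E ∩ DQ3 b' z) ≤ ENNReal.ofReal (D * (4 : ℝ) ^ b')} =
      φ ⁻¹' {p : ℤ × ℤ | volume (E ∩ {y : Pl | |⌊y 0 / (2 : ℝ) ^ b'⌋ - p.1| ≤ 1 ∧
        |⌊y 1 / (2 : ℝ) ^ b'⌋ - p.2| ≤ 1}) ≤ ENNReal.ofReal (D * (4 : ℝ) ^ b')} := rfl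
  rw [e2]
  exact hφ (Set.to_countable _).measurableSet

/-- the age decomposition -/
theorem age {E : Set Pl} {D : ℝ} {q : ℕ} {k : ℤ} {z : Pl}
    (h1 : z ∈ Ck E D k) (h2 : z ∉ Ck E D (k - 2 ^ q)) :
    ∃ i ∈ Finset.range (q + 1), z ∈ Fa E D i (k / 2 ^ i) := by
  classical
  have hq1 : 1 ≤ 2 ^ q := Nat.one_le_two_pow
  have hex : ∃ a : ℕ, z ∉ Ck E D (k - a - 1) := ⟨2 ^ q - 1, by
    have : k - ((2 ^ q - 1 : ℕ) : ℤ) - 1 = k - 2 ^ q := by
      push_cast [Nat.cast_sub hq1]; ring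
    rw [this]; exact h2⟩
  set α := Nat.find hex with hα
  have hα1 : z ∉ Ck E D (k - α - 1) := Nat.find_spec hex
  have hα2 : α ≤ 2 ^ q - 1 := Nat.find_min' hex (by
    have : k - ((2 ^ q - 1 : ℕ) : ℤ) - 1 = k - 2 ^ q := by
      push_cast [Nat.cast_sub hq1]; ring
    rw [this]; exact h2)
  have hα3 : z ∈ Ck E D (k - α) := by
    rcases Nat.eq_zero_or_pos α with h0 | h0
    · rw [h0]; simpa using h1
    · have h3 := Nat.find_min hex (m := α - 1) (by omega)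
      rw [not_not] at h3
      have : k - ((α - 1 : ℕ) : ℤ) - 1 = k - α := by
        push_cast [Nat.cast_sub h0]; ring
      rwa [this] at h3
  rcases Nat.eq_zero_or_pos α with h0 | h0
  · refine ⟨0, by simp, ?_⟩
    rw [h0] at hα1 hα3
    simp only [Nat.cast_zero, sub_zero] at hα1 hα3
    refine ⟨?_, fun h => hα1 (lap_ck_mono ?_ h)⟩
    · simpa using hα3
    · simp
  · set i := Nat.log 2 α with hi
    have hi1 : 2 ^ i ≤ α := Nat.pow_log_le_self 2 (by omega)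
    have hi2 : α < 2 ^ (i + 1) := Nat.lt_pow_succ_log_self (by norm_num) α
    have hi3 : i < q := by
      by_contra hcon
      push Not at hcon
      have : 2 ^ q ≤ 2 ^ i := Nat.pow_le_pow_right (by norm_num) hcon
      omega
    refine ⟨i, by rw [Finset.mem_range]; omega, ?_⟩
    have hi1' : (2 : ℤ) ^ i ≤ α := by exact_mod_cast hi1
    have hi2' : (α : ℤ) < 2 * 2 ^ i := by
      have : α < 2 * 2 ^ i := by rw [pow_succ] at hi2; omega
      exact_mod_cast this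
    have hp : (0 : ℤ) < 2 ^ i := by positivity
    have hd1 : k / 2 ^ i * 2 ^ i ≤ k := Int.ediv_mul_le k hp.ne'
    have hd2 : k < (k / 2 ^ i + 1) * 2 ^ i := Int.lt_ediv_add_one_mul_self k hp
    refine ⟨lap_ck_mono ?_ hα3, fun h => hα1 (lap_ck_mono ?_ h)⟩
    · nlinarith
    · nlinarith

/-- Module CFB. -/
theorem hCFB (hPT : Pool.Agent.Helper20.RG.StPT) (hMEA : Pool.Agent.Helper20.RG.StMEA)
    (hYB : Pool.Agent.Helper20.RG.StYB) (hLAM : Pool.Agent.Helper20.RL.StLAM) : StCFB := by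
  refine ⟨fun E D b _ => ⟨fb_ck E D b, ck_fb E D b⟩, ?_⟩
  intro E D R Cf q s c m u x k hE hD hs hc _hu hR hLoc
  obtain ⟨a1, a2, _, _⟩ := hLAM E (D / 4) hE (by linarith)
  have h2k : (0 : ℝ) < (2 : ℝ) ^ k := zpow_pos (by norm_num) k
  have hR0 : 0 ≤ R := (norm_nonneg c).trans hc
  have hℓ : (0 : ℝ) < 1 / (2 : ℝ) ^ u := by positivity
  set S := Sq x ((R + 3) * (2 : ℝ) ^ k) with hS
  have hSm : MeasurableSet S := (hPT.2.2.2.2.2.2.2 x ((R + 3) * (2 : ℝ) ^ k) (by positivity)).1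
  set X := E \ Fb E D (k - 2 ^ q) with hX
  have hXBM : BM X := ⟨hE.1.diff (meas_fb hE.1 D _), hE.2.subset sdiff_subset⟩
  -- the pointwise bound on `S`
  have hpt : ∀ z ∈ E ∩ S, z ∈ Ck E (D / 4) k := by
    rintro z ⟨hzE, hz0, hz1⟩
    refine ⟨hzE, fun k' hk' => ?_⟩
    have h2k' : (0 : ℝ) < (2 : ℝ) ^ k' := zpow_pos (by norm_num) k'
    have hkk : (2 : ℝ) ^ k ≤ (2 : ℝ) ^ k' := zpow_le_zpow_right₀ (by norm_num) hk'
    have hsub : E ∩ Sq z ((2 : ℝ) ^ k') ⊆ E ∩ Sq x (Cf * (2 : ℝ) ^ k') := by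
      rintro y ⟨hyE, hy0, hy1⟩
      have hb : (R + 3) * (2 : ℝ) ^ k + (2 : ℝ) ^ k' ≤ Cf * (2 : ℝ) ^ k' := by
        have e1 : (R + 3) * (2 : ℝ) ^ k ≤ (R + 3) * (2 : ℝ) ^ k' := by gcongr
        have e2 : (R + 10) * (2 : ℝ) ^ k' ≤ Cf * (2 : ℝ) ^ k' := by gcongr
        nlinarith
      refine ⟨hyE, ?_, ?_⟩
      · calc |y 0 - x 0| = |(y 0 - z 0) + (z 0 - x 0)| := by congr 1; ring
          _ ≤ |y 0 - z 0| + |z 0 - x 0| := abs_add_le _ _
          _ ≤ Cf * (2 : ℝ) ^ k' := by linarith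
      · calc |y 1 - x 1| = |(y 1 - z 1) + (z 1 - x 1)| := by congr 1; ring
          _ ≤ |y 1 - z 1| + |z 1 - x 1| := abs_add_le _ _
          _ ≤ Cf * (2 : ℝ) ^ k' := by linarith
    have hint : ∫⁻ y in Sq x (Cf * (2 : ℝ) ^ k'), ‖E.indicator (1 : Pl → ℝ) y‖ₑ =
        volume (E ∩ Sq x (Cf * (2 : ℝ) ^ k')) := by
      have e1 : ∀ y : Pl, ‖E.indicator (1 : Pl → ℝ) y‖ₑ = E.indicator (fun _ => (1 : ℝ≥0∞)) y := by
        intro y
        by_cases hy : y ∈ E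
        · simp [hy]
        · simp [hy]
      simp_rw [e1]
      rw [lintegral_indicator_const hE.1, one_mul, Measure.restrict_apply hE.1]
    calc volume (E ∩ Sq z ((2 : ℝ) ^ k')) ≤ volume (E ∩ Sq x (Cf * (2 : ℝ) ^ k')) := measure_mono hsub
      _ = ∫⁻ y in Sq x (Cf * (2 : ℝ) ^ k'), ‖E.indicator (1 : Pl → ℝ) y‖ₑ := hint.symm
      _ ≤ ENNReal.ofReal (D / 4 * (4 : ℝ) ^ k') := hLoc k'
  set g : ℕ → Pl → ℝ := fun i => (Fa E (D / 4) i (k / 2 ^ i)).indicator 1 with hg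
  have hgBB : ∀ i, BB (g i) := fun i => lap_bb_ind (a2 i _).1
  have hg0 : ∀ i y, 0 ≤ g i y := fun i y => indicator_nonneg (fun _ _ => zero_le_one) _
  -- sums
  set G : ℕ → Pl → ℝ := fun n y => ∑ i ∈ Finset.range n, g i y with hG
  have hGsucc : ∀ n, G (n + 1) = fun y => 1 * g n y + G n y := by
    intro n
    funext y
    rw [hG]
    simp only [Finset.sum_range_succ]
    ring
  have hG0 : G 0 = (∅ : Set Pl).indicator 1 := by
    funext y; rw [hG]; simp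
  have hGBB : ∀ n, BB (G n) := by
    intro n
    induction n with
    | zero => rw [hG0]; exact lap_bb_ind ⟨MeasurableSet.empty, Bornology.isBounded_empty⟩
    | succ n ih => rw [hGsucc]; exact lap_bb_add 1 (hgBB n) ih
  have hYG : ∀ n, Y s c m (1 / (2 : ℝ) ^ u) k (G n) x =
        ∑ i ∈ Finset.range n, Y s c m (1 / (2 : ℝ) ^ u) k (g i) x := by
    intro n
    induction n with
    | zero => rw [hG0]; simp [Y, Av]
    | succ n ih =>
      rw [hGsucc, (hYB s c m _ k (g n) hs hℓ (hgBB n)).2.2.2.2 1 (G n) (hGBB n) x, ih,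
        Finset.sum_range_succ]
      ring
  have hEBB : BB (X.indicator 1) := lap_bb_ind hXBM
  -- the difference
  set H : Pl → ℝ := fun y => (-1) * X.indicator 1 y + G (q + 1) y with hH
  have hHBB : BB H := lap_bb_add (-1) hEBB (hGBB (q + 1))
  have hYH : Y s c m (1 / (2 : ℝ) ^ u) k H x = (-1) * Y s c m (1 / (2 : ℝ) ^ u) k (X.indicator 1) x +
      Y s c m (1 / (2 : ℝ) ^ u) k (G (q + 1)) x :=
    (hYB s c m _ k (X.indicator 1) hs hℓ hEBB).2.2.2.2 (-1) (G (q + 1)) (hGBB (q + 1)) x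
  have hHS : ∀ y, 0 ≤ S.indicator H y := by
    intro y
    by_cases hyS : y ∈ S
    · rw [indicator_of_mem hyS]
      show 0 ≤ (-1) * X.indicator 1 y + G (q + 1) y
      have hsum0 : 0 ≤ ∑ i ∈ Finset.range (q + 1), g i y := Finset.sum_nonneg fun i _ => hg0 i y
      have hGe : G (q + 1) y = ∑ i ∈ Finset.range (q + 1), g i y := rfl
      by_cases hyX : y ∈ X
      · rw [indicator_of_mem hyX, hGe]
        have hnot : y ∉ Ck E (D / 4) (k - 2 ^ q) := by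
          intro h
          apply hyX.2
          have := ck_fb E (D / 4) _ h
          rwa [show 4 * (D / 4) = D by ring] at this
        obtain ⟨i, hi, hyi⟩ := age (hpt y ⟨hyX.1, hyS⟩) hnot
        have h3 : g i y ≤ ∑ i ∈ Finset.range (q + 1), g i y :=
          Finset.single_le_sum (f := fun i => g i y) (fun j _ => hg0 j y) hi
        have h4 : g i y = 1 := by
          rw [hg]
          exact indicator_of_mem hyi _
        simp only [Pi.one_apply]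
        linarith
      · rw [indicator_of_notMem hyX, hGe]
        linarith
    · rw [indicator_of_notMem hyS]
  have hY0 : 0 ≤ Y s c m (1 / (2 : ℝ) ^ u) k H x := by
    rw [lap_loc hPT hMEA hs hc m u k x H]
    exact (hYB s c m _ k (S.indicator H) hs hℓ (lap_bb_indicator hSm hHBB)).2.2.1 hHS x
  rw [hYH, hYG] at hY0
  linarith

end Pool.Agent.Helper47.EP
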