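import Pool.Agent.Helper61.EP.StL

/-! # Module LOA of project EP: the output of part L -/

set_option autoImplicit false

open MeasureTheory Set Filter Topology
open scoped ENNReal RealInnerProductSpace

namespace Pool.Agent.Helper47.EPL

open Pool.Agent.Helper61.EPL
open Pool.Agent.Helper68.LM (Pl BB Bd Av HL ft fm DQ)
open Pool.Agent.Helper20.RG
open Pool.Agent.Helper20.RL (RQ Rich BM Fml Hit)
open Pool.Agent.Helper68.EP
open Pool.Agent.Helper61.EP (trS Ex2 Yc Zc Ec am cutf)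

/-- a set covered by four sets and a null set -/
private theorem sum4_LOA (w : ℤ → ℝ≥0∞) (S X A B D : ℤ → Set Pl) (Z : Set Pl) (hZ : volume Z = 0)
    (hS : ∀ l, S l ⊆ Z ∪ (X l ∪ (A l ∪ (B l ∪ D l)))) (I a b c d : ℝ≥0∞)
    (ha : ∑' l, w l * volume (X l) ≤ a * I) (hb : ∑' l, w l * volume (A l) ≤ b * I)
    (hc : ∑' l, w l * volume (B l) ≤ c * I) (hd : ∑' l, w l * volume (D l) ≤ d * I) :
    ∑' l, w l * volume (S l) ≤ (a + (b + (c + d))) * I := by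
  have h1 : ∀ l, w l * volume (S l) ≤
      w l * volume (X l) + (w l * volume (A l) + (w l * volume (B l) + w l * volume (D l))) := by
    intro l
    have h2 : volume (S l) ≤
        volume (X l) + (volume (A l) + (volume (B l) + volume (D l))) := by
      refine (measure_mono (hS l)).trans ?_
      refine (measure_union_le _ _).trans ?_
      rw [hZ, zero_add]
      refine (measure_union_le _ _).trans (add_le_add le_rfl ?_)
      refine (measure_union_le _ _).trans (add_le_add le_rfl ?_)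
      exact measure_union_le _ _
    refine (mul_le_mul' le_rfl h2).trans (le_of_eq ?_)
    rw [mul_add, mul_add, mul_add]
  refine (ENNReal.tsum_le_tsum h1).trans ?_
  rw [ENNReal.tsum_add, ENNReal.tsum_add, ENNReal.tsum_add, add_mul, add_mul, add_mul]
  exact add_le_add ha (add_le_add hb (add_le_add hc hd))

theorem hLOA (hGPG : Pool.Agent.Helper68.EP.StGPG) (hSY : Pool.Agent.Helper68.EP.StSY)
    (hCEX : Pool.Agent.Helper61.EP.StCEX) (hLXC : Pool.Agent.Helper61.EPL.StLXC)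
    (hLCB : Pool.Agent.Helper61.EPL.StLCB) (hLGO : Pool.Agent.Helper61.EPL.StLGO)
    (hLX2 : Pool.Agent.Helper61.EPL.StLX2) (hLX3 : Pool.Agent.Helper61.EPL.StLX3)
    (hLDM : Pool.Agent.Helper61.EPL.StLDM) : Pool.Agent.Helper61.EPL.StLOA := by
  intro φ τ A p c hG hA hGap hp1 hp2 hp3
  have hp0 : 0 < p := by linarith
  have hGA := hGPG τ A p hA hp0 hGap
  set A₁ : ℝ := A ^ (1 / p) with hA₁
  have hA₁0 : 0 < A₁ := Real.rpow_pos_of_pos hA _
  obtain ⟨c0, hc0⟩ := hSY φ τ A p hG hA hGap hp1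
  obtain ⟨s, γ, -, hEx⟩ := hCEX p 1 hp1 hp2 hp3 one_pos
  have hs1 : 1 < s := hEx.1
  have hsp : s < p := hEx.2.1
  let P : Par :=
    { p := p, s := s, ε := (s - 1) / 64, A := A, c0 := c0, hs := hs1, hsp := hsp, hp := hp2,
      hε := by linarith, hεs := by linarith, hA := hA.le }
  have hSyP : Sy P (dat τ) := hc0 P rfl rfl rfl
  obtain ⟨u₀', ε₃, Cf, C₁, hε₃, hCf, hC₁, hXC⟩ := hLXC φ τ A₁ γ c P hG hGA hA₁0 hEx
  obtain ⟨u₁, hCB⟩ := hLCB ε₃ hε₃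
  refine ⟨P, rfl, hSyP, fun u₀ => ?_⟩
  let U₀ : ℕ := max (max u₀ u₀') (max u₁ 1)
  have hU0 : u₀ ≤ U₀ := (le_max_left _ _).trans (le_max_left _ _)
  have hU0' : u₀' ≤ U₀ := (le_max_right _ _).trans (le_max_left _ _)
  have hU1 : u₁ ≤ U₀ := (le_max_left _ _).trans (le_max_right _ _)
  have hU2 : 1 ≤ U₀ := (le_max_right _ _).trans (le_max_right _ _)
  obtain ⟨C₂, hC₂, hGO⟩ := hLGO φ τ A₁ p s Cf c U₀ hG hGA hA₁0 hs1 hsp hCf hU2
  obtain ⟨C₃, hC₃, hX2⟩ := hLX2 φ τ A₁ p c hG hGA hA₁0 hp1 hp2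
  obtain ⟨C₄, hC₄, hX3⟩ := hLX3 A p hA hp1 hp2
  refine ⟨U₀, C₂ + (C₃ + (C₄ + C₁)), 5, hU0, by linarith, by norm_num, fun f hf hf0 => ?_⟩
  obtain ⟨X, hX, hXg⟩ := hGO f hf hf0
  have hDM := hLDM φ τ A₁ p c hG hGA hA₁0 hp0 U₀ f hU2 hf hf0
  rw [ENNReal.ofReal_add (by linarith) (by linarith),
    ENNReal.ofReal_add (by linarith) (by linarith),
    ENNReal.ofReal_add (by linarith) (by linarith)]
  refine sum4_LOA _ _ X _ _ _ _ (ae_iff.1 hDM) ?_ _ _ _ _ _ hX (hX2 U₀ f hU2 hf hf0)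
    (hX3 φ τ c hG hGap U₀ f hU2 hf hf0) (hXC f hf hf0)
  rintro l x ⟨k, hk, hsum⟩
  by_contra hx
  simp only [mem_union, not_or] at hx
  obtain ⟨hx0, hx1, hx2, hx3, hx4⟩ := hx
  have hx0' := not_not.1 hx0
  obtain ⟨hLoc, hSa⟩ := hXg l x hx1
  have e2 : ∑' i : ℕ, ‖Ec c φ τ (U₀ + i + 1) k (cutf f l (U₀ + i + 1)) x‖ₑ ≤
      ENNReal.ofReal ((2 : ℝ) ^ l / 4) := by
    by_contra hc
    exact hx2 ⟨k, not_le.1 hc⟩
  have e3 : liminf (fun U : ℕ => ‖∑ u ∈ Finset.Ioc U₀ U, Zc c φ τ u k (cutf f l u) x‖ₑ) atTop ≤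
      ENNReal.ofReal ((2 : ℝ) ^ l / 4) := by
    by_contra hc
    exact hx3 ⟨k, not_le.1 hc⟩
  obtain ⟨V, hV⟩ := hx0' k l hk (hSa k) e2 e3
  have h4 : ∀ u : ℕ, U₀ ≤ u → ¬ ((2 : ℝ) ^ (-(ε₃ * u)) ≤ trS (2 ^ u) ((2 : ℝ) ^ (-(P.g / 8 * u)))
            (fun j => Yc c φ τ u k ((Gf f (l + (u : ℤ))).indicator 1) x j) ∨
          (2 : ℝ) ^ (-(ε₃ * u)) ≤ ∑ j ∈ Finset.range (2 ^ u), Yc c φ τ u k
            ((Gf f (l + (u : ℤ)) \ Fo P u k (q0 P u) (Gf f (l + (u : ℤ)))).indicator 1) x j) := by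
    intro u hu hh
    exact hx4 ⟨u, hU0'.trans hu, hLoc u, k, hh⟩
  have h5 := hCB φ τ P c U₀ V k l f x hG hU1 hf hf0
    (fun u hu => not_le.1 (fun hh => h4 u hu (Or.inl hh)))
    (fun u hu => not_le.1 (fun hh => h4 u hu (Or.inr hh))) hV
  exact absurd (hsum V) (not_lt.2 h5)

end Pool.Agent.Helper47.EPL
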